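import Pool.Agent.SunP.Composite

set_option autoImplicit false

/-!
# MP_a39b8d_nt: ManyGoodShifts

At least `c N / log log log N` of the composite integers `n ≤ N` have a `k ≤ min (n, log² n)` with
`n + π(k²)` prime.
-/

namespace Pool.Agent.Results.MP_a39b8d_nt.ManyGoodShifts

/-- There is `c > 0` such that for all large `N` at least `c N / log log log N` composite integers
`n ≤ N` have an integer `1 ≤ k ≤ min (n, (log n)²)` with `n + π(k²)` prime. -/
theorem _root_.Pool.Agent.Results.MP_a39b8d_nt.ManyGoodShifts.result :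
    ∃ c : ℝ, 0 < c ∧ ∀ᶠ N : ℕ in Filter.atTop,
      c * N / Real.log (Real.log (Real.log N)) ≤
        ({n : ℕ | 1 < n ∧ n ≤ N ∧ ¬ n.Prime ∧ ∃ k : ℕ, 1 ≤ k ∧ k ≤ n ∧
          (k : ℝ) ≤ Real.log n ^ 2 ∧ (n + Nat.primeCounting (k ^ 2)).Prime}.ncard : ℝ) :=
  Pool.Agent.SunP.square_shifts_composite

end Pool.Agent.Results.MP_a39b8d_nt.ManyGoodShifts
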